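import Pool.Agent.W586.SK.Stm

/-! SK-LOW: lower bound of the density at the origin. -/

set_option autoImplicit false

namespace Pool.Agent.W632.SK

open MeasureTheory Set
open scoped ENNReal InnerProductSpace
open Pool.Agent.H212R2.KLS (mu Bdd)
open Pool.Agent.W586.SK

theorem int_exp_abs (c : ℝ) (hc : 0 < c) : ∫ t : ℝ, Real.exp (-|t| / c) = 2 * c := by
  have h1 := integral_comp_abs (f := fun t : ℝ => Real.exp (-t / c))
  rw [h1]
  have h2 := integral_exp_mul_Ioi (a := -(1 / c)) (by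
    have : 0 < 1 / c := by positivity
    linarith) 0
  have h3 : (fun t : ℝ => Real.exp (-t / c)) = fun t : ℝ => Real.exp (-(1 / c) * t) := by
    funext t
    congr 1
    ring
  rw [h3, h2]
  simp

theorem int_prod (n : ℕ) (c : ℝ) (hc : 0 < c) :
    ∫ x : E n, ∏ i, Real.exp (-|x i| / c) = (2 * c) ^ n := by
  have h1 := (EuclideanSpace.volume_preserving_symm_measurableEquiv_toLp (Fin n)).integral_comp'
    (fun y : Fin n → ℝ => ∏ i, Real.exp (-|y i| / c))
  have h2 : ∫ x : E n, ∏ i, Real.exp (-|x i| / c) =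
      ∫ y : Fin n → ℝ, ∏ i, Real.exp (-|y i| / c) := h1
  rw [h2, integral_fintype_prod_volume_eq_pow (fun t : ℝ => Real.exp (-|t| / c)),
    int_exp_abs c hc, Fintype.card_fin]

theorem max_zero {n : ℕ} (ρ : E n → ℝ) (h : Sy ρ) (x : E n) : ρ x ≤ ρ 0 := by
  have h1 := h.logc x (-x) (1 / 2) (by norm_num) (by norm_num)
  have h2 : ρ (-x) = ρ x := h.inv 1 x (-x) (fun i => by simp)
  rw [h2, ← Real.rpow_add_of_nonneg (h.nonneg x) (by norm_num) (by norm_num)] at h1
  have h3 : (1 - 1 / 2 : ℝ) • x + (1 / 2 : ℝ) • (-x) = 0 := by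
    rw [smul_neg, ← sub_eq_add_neg, ← sub_smul]
    norm_num
  rw [h3] at h1
  norm_num at h1
  exact h1

theorem ae_bdd {n : ℕ} (ρ : E n → ℝ) (R : ℝ) (hR : ∀ x, R < ‖x‖ → ρ x = 0) :
    ∀ᵐ x ∂(mu ρ), ‖x‖ ≤ R := by
  rw [ae_iff]
  have hm : MeasurableSet {x : E n | ¬ ‖x‖ ≤ R} :=
    (measurableSet_le measurable_norm measurable_const).compl
  unfold mu
  rw [withDensity_apply _ hm]
  have : ∀ x ∈ {x : E n | ¬ ‖x‖ ≤ R}, ENNReal.ofReal (ρ x) = 0 := by
    intro x hx
    rw [hR x (not_le.1 hx), ENNReal.ofReal_zero]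
  rw [setLIntegral_congr_fun hm this]
  simp

theorem meas_le {n : ℕ} (ρ : E n → ℝ) (hS : Sy ρ) (c : ℝ) (hc0 : 0 < c) (S : Set (E n))
    (hSm : MeasurableSet S) (hle : ∀ x ∈ S, nm x ≤ 2 * n * c) :
    (mu ρ).real S ≤ ρ 0 * Real.exp (2 * n) * (2 * c) ^ n := by
  have hprod := int_prod n c hc0
  have hρ0 : 0 ≤ ρ 0 := hS.nonneg 0
  set K : ℝ := ρ 0 * Real.exp (2 * n) with hK
  have hK0 : 0 ≤ K := by positivity
  have hpint : Integrable (fun x : E n => ∏ i, Real.exp (-|x i| / c)) := by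
    apply Integrable.of_integral_ne_zero
    rw [hprod]
    positivity
  have hgint : Integrable (fun x : E n => K * ∏ i, Real.exp (-|x i| / c)) := hpint.const_mul _
  have hpos : ∀ x : E n, 0 ≤ K * ∏ i, Real.exp (-|x i| / c) := fun x =>
    mul_nonneg hK0 (Finset.prod_nonneg fun i _ => (Real.exp_pos _).le)
  have hint : ∫ x : E n, K * ∏ i, Real.exp (-|x i| / c) = K * (2 * c) ^ n := by
    rw [integral_const_mul, hprod]
  have hpt : ∀ x ∈ S, ρ x ≤ K * ∏ i, Real.exp (-|x i| / c) := by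
    intro x hx
    have h1 : ∏ i, Real.exp (-|x i| / c) = Real.exp (-(nm x) / c) := by
      rw [← Real.exp_sum]
      congr 1
      unfold nm
      rw [← Finset.sum_div, Finset.sum_neg_distrib]
    rw [h1, hK, mul_assoc, ← Real.exp_add]
    have h2 : 0 ≤ 2 * (n : ℝ) + -(nm x) / c := by
      have h3 : nm x ≤ 2 * n * c := hle x hx
      have h4 : nm x / c ≤ 2 * n := by
        rw [div_le_iff₀ hc0]
        exact h3
      rw [neg_div]
      linarith
    have h5 : 1 ≤ Real.exp (2 * (n : ℝ) + -(nm x) / c) := Real.one_le_exp h2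
    calc ρ x ≤ ρ 0 := max_zero ρ hS x
      _ = ρ 0 * 1 := (mul_one _).symm
      _ ≤ ρ 0 * Real.exp (2 * (n : ℝ) + -(nm x) / c) := mul_le_mul_of_nonneg_left h5 hρ0
  have h0 : mu ρ S = ∫⁻ x in S, ENNReal.ofReal (ρ x) := by
    unfold mu
    exact withDensity_apply _ hSm
  have h1 : ∫⁻ x in S, ENNReal.ofReal (ρ x) ≤
      ∫⁻ x in S, ENNReal.ofReal (K * ∏ i, Real.exp (-|x i| / c)) :=
    setLIntegral_mono' hSm fun x hx => ENNReal.ofReal_le_ofReal (hpt x hx)
  have h2 : ∫⁻ x in S, ENNReal.ofReal (K * ∏ i, Real.exp (-|x i| / c)) ≤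
      ∫⁻ x : E n, ENNReal.ofReal (K * ∏ i, Real.exp (-|x i| / c)) := setLIntegral_le_lintegral _ _
  have h3 : ∫⁻ x : E n, ENNReal.ofReal (K * ∏ i, Real.exp (-|x i| / c)) =
      ENNReal.ofReal (K * (2 * c) ^ n) := by
    rw [← hint]
    exact (ofReal_integral_eq_lintegral_ofReal hgint (ae_of_all _ hpos)).symm
  have h4 : mu ρ S ≤ ENNReal.ofReal (K * (2 * c) ^ n) := by
    rw [h0, ← h3]
    exact h1.trans h2
  rw [measureReal_def]
  exact ENNReal.toReal_le_of_le_ofReal (by positivity) h4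

theorem low : S_LOW := by
  intro n ρ hn hS hB hmu s hs hv
  obtain ⟨R, hR⟩ := hB
  set c : ℝ := Real.sqrt s with hc
  have hc0 : 0 < c := Real.sqrt_pos.2 hs
  have hcs : c ^ 2 = s := Real.sq_sqrt hs.le
  have hn0 : (0 : ℝ) < n := by exact_mod_cast hn
  have : IsProbabilityMeasure (mu ρ) := ⟨hmu⟩
  have hae := ae_bdd ρ R hR
  have hcoord : ∀ i : Fin n, Measurable (fun x : E n => x i) := fun i => by fun_prop
  have hint : ∀ i : Fin n, Integrable (fun x : E n => x i ^ 2) (mu ρ) := by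
    intro i
    refine Integrable.of_bound ((hcoord i).pow_const 2).aestronglyMeasurable (R ^ 2) ?_
    filter_upwards [hae] with x hx
    rw [Real.norm_eq_abs, abs_of_nonneg (sq_nonneg _)]
    have h1 : |x i| ≤ ‖x‖ := by
      have := EuclideanSpace.norm_eq x
      have h2 := PiLp.norm_apply_le x i
      rwa [Real.norm_eq_abs] at h2
    have h3 : |x i| ≤ R := h1.trans hx
    calc x i ^ 2 = |x i| ^ 2 := (sq_abs _).symm
      _ ≤ R ^ 2 := by
        have := abs_nonneg (x i)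
        gcongr
  have hnmle : ∀ x : E n, nm x ^ 2 ≤ n * ∑ i, x i ^ 2 := by
    intro x
    unfold nm
    have h1 := sq_sum_le_card_mul_sum_sq (s := (Finset.univ : Finset (Fin n)))
      (f := fun i => |x i|)
    simpa using h1
  have hnmM : Measurable (fun x : E n => nm x) := by
    unfold nm
    exact Finset.measurable_sum _ fun i _ => (hcoord i).abs
  have hintsum : Integrable (fun x : E n => (n : ℝ) * ∑ i, x i ^ 2) (mu ρ) :=
    (integrable_finsetSum _ fun i _ => hint i).const_mul _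
  have hintnm : Integrable (fun x : E n => nm x ^ 2) (mu ρ) := by
    refine hintsum.mono' (hnmM.pow_const 2).aestronglyMeasurable (ae_of_all _ fun x => ?_)
    rw [Real.norm_eq_abs, abs_of_nonneg (sq_nonneg _)]
    exact hnmle x
  have hnm2 : ∫ x, nm x ^ 2 ∂(mu ρ) ≤ n ^ 2 * s := by
    calc ∫ x, nm x ^ 2 ∂(mu ρ) ≤ ∫ x : E n, (n : ℝ) * ∑ i, x i ^ 2 ∂(mu ρ) :=
          integral_mono hintnm hintsum hnmle
      _ = n * ∑ i : Fin n, ∫ x : E n, x i ^ 2 ∂(mu ρ) := by
          rw [integral_const_mul, integral_finsetSum _ fun i _ => hint i]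
      _ ≤ n * ∑ i : Fin n, s := by
          gcongr with i hi
          exact hv i
      _ = n ^ 2 * s := by
          rw [Finset.sum_const, Finset.card_univ, Fintype.card_fin, nsmul_eq_mul]
          ring
  have hmark := mul_meas_ge_le_integral_of_nonneg (μ := mu ρ) (f := fun x : E n => nm x ^ 2)
    (ae_of_all _ fun x => sq_nonneg _) hintnm (4 * n ^ 2 * s)
  have hmark2 : (mu ρ).real {x : E n | 4 * n ^ 2 * s ≤ nm x ^ 2} ≤ 1 / 4 := by
    have h1 := hmark.trans hnm2
    have h2 : (0 : ℝ) < n ^ 2 * s := by positivity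
    have h3 : (n ^ 2 * s) * (4 * (mu ρ).real {x : E n | 4 * n ^ 2 * s ≤ nm x ^ 2}) ≤
        (n ^ 2 * s) * 1 := by linarith
    have h4 := le_of_mul_le_mul_left h3 h2
    linarith
  set S : Set (E n) := {x : E n | nm x ≤ 2 * n * c} with hSdef
  have hSm : MeasurableSet S := measurableSet_le hnmM measurable_const
  have hsub : Sᶜ ⊆ {x : E n | 4 * n ^ 2 * s ≤ nm x ^ 2} := by
    intro x hx
    have h1 : 2 * n * c < nm x := by
      by_contra h
      exact hx (not_lt.1 h)
    show 4 * n ^ 2 * s ≤ nm x ^ 2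
    have h2 : (4 : ℝ) * n ^ 2 * s = (2 * n * c) ^ 2 := by
      rw [← hcs]
      ring
    rw [h2]
    have : 0 ≤ 2 * n * c := by positivity
    gcongr
  have hScompl : (mu ρ).real Sᶜ ≤ 1 / 4 := (measureReal_mono hsub).trans hmark2
  have hSge : 3 / 4 ≤ (mu ρ).real S := by
    have h1 := probReal_compl_eq_one_sub (μ := mu ρ) hSm
    linarith
  have hle2 := meas_le ρ hS c hc0 S hSm fun x hx => hx
  refine (hSge.trans hle2).trans (le_of_eq ?_)
  have h6 : Real.exp (2 * n) = Real.exp 2 ^ n := by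
    rw [← Real.exp_nat_mul]
    congr 1
    ring
  rw [h6, mul_assoc, ← mul_pow]
  congr 2
  ring

end Pool.Agent.W632.SK
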